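import Mathlib

/-!
# Doubly irreducible elements of irreducible posets occur on both sides of critical pairs
-/

set_option autoImplicit false

namespace Pool.Agent.Results.MP_ba261c_co.DoublyIrreducible

/-- The order of `P` is the intersection of `k` linear extensions. -/
def HasRealizer (P : Type) [PartialOrder P] (k : ℕ) : Prop :=
  ∃ L : Fin k → P → P → Prop, (∀ i, IsLinearOrder P (L i)) ∧ ∀ x y, x ≤ y ↔ ∀ i, L i x y

/-- The (Dushnik–Miller) dimension of a finite poset: the least number `k ≥ 1` of linear extensions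
whose intersection is the order. -/
noncomputable def dim (P : Type) [PartialOrder P] : ℕ :=
  sInf {k | 1 ≤ k ∧ HasRealizer P k}

/-- Deleting any single element lowers the dimension. -/
def Irreducible (P : Type) [PartialOrder P] : Prop :=
  ∀ x : P, dim {y : P // y ≠ x} < dim P

/-- `a` is join-irreducible: `a = ⋁ S` implies `a ∈ S`. -/
def JoinIrr {P : Type} [PartialOrder P] (a : P) : Prop := ∀ S : Set P, IsLUB S a → a ∈ S

/-- `a` is meet-irreducible: `a = ⋀ S` implies `a ∈ S`. -/
def MeetIrr {P : Type} [PartialOrder P] (a : P) : Prop := ∀ S : Set P, IsGLB S a → a ∈ S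

/-- `⟨a, b⟩` is a critical pair. -/
def Crit {P : Type} [PartialOrder P] (a b : P) : Prop :=
  ¬ a ≤ b ∧ ¬ b ≤ a ∧ (∀ z, a < z → b < z) ∧ (∀ z, z < b → z < a)

section

variable {P : Type} [PartialOrder P]

/-- Szpilrajn: if `¬ a ≤ b` then some linear extension does not have `a` below `b`. -/
lemma exists_linear (a b : P) (hab : ¬ a ≤ b) :
    ∃ L : P → P → Prop, IsLinearOrder P L ∧ (∀ x y, x ≤ y → L x y) ∧ ¬ L a b := by
  let r : P → P → Prop := fun u v => u ≤ v ∨ (u ≤ b ∧ a ≤ v)
  have hr : IsPartialOrder P r :=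
    { refl := fun u => Or.inl le_rfl
      trans := by
        rintro u v w (h1 | ⟨h1, h2⟩) (h3 | ⟨h3, h4⟩)
        · exact Or.inl (h1.trans h3)
        · exact Or.inr ⟨h1.trans h3, h4⟩
        · exact Or.inr ⟨h1, h2.trans h3⟩
        · exact absurd (h2.trans h3) hab
      antisymm := by
        rintro u v (h1 | ⟨h1, h2⟩) (h3 | ⟨h3, h4⟩)
        · exact le_antisymm h1 h3
        · exact absurd (h4.trans (h1.trans h3)) hab
        · exact absurd (h2.trans (h3.trans h1)) hab
        · exact absurd (h2.trans h3) hab }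
  obtain ⟨s, hs, hrs⟩ := extend_partialOrder r
  refine ⟨s, hs, fun x y h => hrs x y (Or.inl h), fun h => ?_⟩
  have h1 : s b a := hrs b a (Or.inr ⟨le_rfl, le_rfl⟩)
  have h2 : a = b := hs.antisymm _ _ h h1
  exact hab h2.le

lemma exists_realizer [Finite P] : ∃ k, 1 ≤ k ∧ HasRealizer P k := by
  classical
  obtain ⟨L0, hL0, hext0⟩ : ∃ L : P → P → Prop, IsLinearOrder P L ∧ (∀ x y, x ≤ y → L x y) := by
    obtain ⟨s, hs, hrs⟩ := extend_partialOrder (fun x y : P => x ≤ y)
    exact ⟨s, hs, fun x y h => hrs x y h⟩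
  have key : ∀ p : P × P, ∃ L : P → P → Prop, IsLinearOrder P L ∧ (∀ x y, x ≤ y → L x y) ∧
      (¬ p.1 ≤ p.2 → ¬ L p.1 p.2) := by
    intro p
    by_cases h : p.1 ≤ p.2
    · exact ⟨L0, hL0, hext0, fun h' => absurd h h'⟩
    · obtain ⟨L, h1, h2, h3⟩ := exists_linear p.1 p.2 h
      exact ⟨L, h1, h2, fun _ => h3⟩
  choose F hF1 hF2 hF3 using key
  have : Fintype (P × P) := Fintype.ofFinite _
  let e := Fintype.equivFin (P × P)
  refine ⟨Fintype.card (P × P) + 1, by omega, fun i => if h : (i : ℕ) < Fintype.card (P × P) then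
    F (e.symm ⟨i, h⟩) else L0, ?_, ?_⟩
  · intro i
    by_cases h : (i : ℕ) < Fintype.card (P × P)
    · simp only [h, dif_pos]
      exact hF1 _
    · simp only [h, dif_neg, not_false_eq_true]
      exact hL0
  · intro x y
    constructor
    · intro hxy i
      by_cases h : (i : ℕ) < Fintype.card (P × P)
      · simp only [h, dif_pos]
        exact hF2 _ _ _ hxy
      · simp only [h, dif_neg, not_false_eq_true]
        exact hext0 _ _ hxy
    · intro hall
      by_contra hxy
      have h1 := hall ⟨(e (x, y) : ℕ), by have := (e (x, y)).2; omega⟩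
      have h2 : ((e (x, y) : Fin _) : ℕ) < Fintype.card (P × P) := (e (x, y)).2
      simp only [h2, dif_pos, Fin.eta, Equiv.symm_apply_apply] at h1
      exact hF3 (x, y) hxy h1

/-- Doubling an element: `x` sits immediately above `y` -/
lemma realizer_above (x y : P) (hyx : y < x) (h1 : ∀ z, z < x → z ≤ y)
    (h2 : ∀ z, y < z → x ≤ z) (k : ℕ) (hk : 1 ≤ k) (h : HasRealizer {z : P // z ≠ x} k) :
    HasRealizer P k := by
  classical
  obtain ⟨L, hL, hreal⟩ := h
  let f : P → {z : P // z ≠ x} := fun z => if h : z = x then ⟨y, hyx.ne⟩ else ⟨z, h⟩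
  have fx : f x = ⟨y, hyx.ne⟩ := by simp [f]
  have fz : ∀ z (h : z ≠ x), f z = ⟨z, h⟩ := fun z h => by simp [f, h]
  -- two elements with the same image
  have hf : ∀ a b, f a = f b → a = b ∨ (a = x ∧ b = y) ∨ (a = y ∧ b = x) := by
    intro a b hab
    by_cases ha : a = x <;> by_cases hb : b = x
    · left; rw [ha, hb]
    · right; left
      rw [ha, fx, fz b hb, Subtype.mk.injEq] at hab
      exact ⟨ha, hab.symm⟩
    · right; right
      rw [hb, fx, fz a ha, Subtype.mk.injEq] at hab
      exact ⟨hab, hb⟩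
    · left
      rw [fz a ha, fz b hb, Subtype.mk.injEq] at hab
      exact hab
  refine ⟨fun i a b => (f a ≠ f b ∧ L i (f a) (f b)) ∨ (f a = f b ∧ a ≤ b), ?_, ?_⟩
  · intro i
    have hLi := hL i
    exact
      { refl := fun a => Or.inr ⟨rfl, le_rfl⟩
        trans := by
          rintro a b c (⟨h3, h4⟩ | ⟨h3, h4⟩) (⟨h5, h6⟩ | ⟨h5, h6⟩)
          · by_cases hac : f a = f c
            · exfalso
              rw [← hac] at h6
              exact h3 (hLi.antisymm _ _ h4 h6)
            · exact Or.inl ⟨hac, hLi.trans _ _ _ h4 h6⟩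
          · left
            rw [← h5]
            exact ⟨h3, h4⟩
          · left
            rw [h3]
            exact ⟨h5, h6⟩
          · exact Or.inr ⟨h3.trans h5, h4.trans h6⟩
        antisymm := by
          rintro a b (⟨h3, h4⟩ | ⟨h3, h4⟩) (⟨h5, h6⟩ | ⟨h5, h6⟩)
          · exact absurd (hLi.antisymm _ _ h4 h6) h3
          · exact absurd h5.symm h3
          · exact absurd h3.symm h5
          · exact le_antisymm h4 h6
        total := by
          intro a b
          by_cases hab : f a = f b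
          · rcases hf a b hab with h3 | ⟨h3, h4⟩ | ⟨h3, h4⟩
            · exact Or.inl (Or.inr ⟨hab, h3.le⟩)
            · exact Or.inr (Or.inr ⟨hab.symm, by rw [h3, h4]; exact hyx.le⟩)
            · exact Or.inl (Or.inr ⟨hab, by rw [h3, h4]; exact hyx.le⟩)
          · rcases hLi.total (f a) (f b) with h3 | h3
            · exact Or.inl (Or.inl ⟨hab, h3⟩)
            · exact Or.inr (Or.inl ⟨fun h => hab h.symm, h3⟩) }
  · intro a b
    constructor
    · intro hab i
      by_cases hfab : f a = f b
      · exact Or.inr ⟨hfab, hab⟩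
      · refine Or.inl ⟨hfab, ?_⟩
        refine (hreal _ _).mp ?_ i
        by_cases ha : a = x <;> by_cases hb : b = x
        · exact absurd (by rw [ha, hb]) hfab
        · rw [ha, fx, fz b hb, Subtype.mk_le_mk]
          rw [ha] at hab
          exact hyx.le.trans hab
        · rw [hb, fx, fz a ha, Subtype.mk_le_mk]
          rw [hb] at hab
          exact h1 a (lt_of_le_of_ne hab ha)
        · rw [fz a ha, fz b hb, Subtype.mk_le_mk]
          exact hab
    · intro hall
      by_cases hfab : f a = f b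
      · rcases hall ⟨0, by omega⟩ with ⟨h3, -⟩ | ⟨-, h3⟩
        · exact absurd hfab h3
        · exact h3
      · have h3 : f a ≤ f b := by
          rw [hreal]
          intro i
          rcases hall i with ⟨-, h4⟩ | ⟨h4, -⟩
          · exact h4
          · exact absurd h4 hfab
        by_cases ha : a = x <;> by_cases hb : b = x
        · exact absurd (by rw [ha, hb]) hfab
        · rw [ha, fx, fz b hb, Subtype.mk_le_mk] at h3
          rw [ha, fx, fz b hb, Subtype.mk.injEq] at hfab
          rw [ha]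
          exact h2 b (lt_of_le_of_ne h3 hfab)
        · rw [hb, fx, fz a ha, Subtype.mk_le_mk] at h3
          rw [hb]
          exact h3.trans hyx.le
        · rw [fz a ha, fz b hb, Subtype.mk_le_mk] at h3
          exact h3

/-- Doubling an element: `x` sits immediately below `y` -/
lemma realizer_below (x y : P) (hxy : x < y) (h1 : ∀ z, x < z → y ≤ z)
    (h2 : ∀ z, z < y → z ≤ x) (k : ℕ) (hk : 1 ≤ k) (h : HasRealizer {z : P // z ≠ x} k) :
    HasRealizer P k := by
  classical
  obtain ⟨L, hL, hreal⟩ := h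
  let f : P → {z : P // z ≠ x} := fun z => if h : z = x then ⟨y, hxy.ne'⟩ else ⟨z, h⟩
  have fx : f x = ⟨y, hxy.ne'⟩ := by simp [f]
  have fz : ∀ z (h : z ≠ x), f z = ⟨z, h⟩ := fun z h => by simp [f, h]
  have hf : ∀ a b, f a = f b → a = b ∨ (a = x ∧ b = y) ∨ (a = y ∧ b = x) := by
    intro a b hab
    by_cases ha : a = x <;> by_cases hb : b = x
    · left; rw [ha, hb]
    · right; left
      rw [ha, fx, fz b hb, Subtype.mk.injEq] at hab
      exact ⟨ha, hab.symm⟩
    · right; right
      rw [hb, fx, fz a ha, Subtype.mk.injEq] at hab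
      exact ⟨hab, hb⟩
    · left
      rw [fz a ha, fz b hb, Subtype.mk.injEq] at hab
      exact hab
  refine ⟨fun i a b => (f a ≠ f b ∧ L i (f a) (f b)) ∨ (f a = f b ∧ a ≤ b), ?_, ?_⟩
  · intro i
    have hLi := hL i
    exact
      { refl := fun a => Or.inr ⟨rfl, le_rfl⟩
        trans := by
          rintro a b c (⟨h3, h4⟩ | ⟨h3, h4⟩) (⟨h5, h6⟩ | ⟨h5, h6⟩)
          · by_cases hac : f a = f c
            · exfalso
              rw [← hac] at h6
              exact h3 (hLi.antisymm _ _ h4 h6)
            · exact Or.inl ⟨hac, hLi.trans _ _ _ h4 h6⟩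
          · left
            rw [← h5]
            exact ⟨h3, h4⟩
          · left
            rw [h3]
            exact ⟨h5, h6⟩
          · exact Or.inr ⟨h3.trans h5, h4.trans h6⟩
        antisymm := by
          rintro a b (⟨h3, h4⟩ | ⟨h3, h4⟩) (⟨h5, h6⟩ | ⟨h5, h6⟩)
          · exact absurd (hLi.antisymm _ _ h4 h6) h3
          · exact absurd h5.symm h3
          · exact absurd h3.symm h5
          · exact le_antisymm h4 h6
        total := by
          intro a b
          by_cases hab : f a = f b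
          · rcases hf a b hab with h3 | ⟨h3, h4⟩ | ⟨h3, h4⟩
            · exact Or.inl (Or.inr ⟨hab, h3.le⟩)
            · exact Or.inl (Or.inr ⟨hab, by rw [h3, h4]; exact hxy.le⟩)
            · exact Or.inr (Or.inr ⟨hab.symm, by rw [h3, h4]; exact hxy.le⟩)
          · rcases hLi.total (f a) (f b) with h3 | h3
            · exact Or.inl (Or.inl ⟨hab, h3⟩)
            · exact Or.inr (Or.inl ⟨fun h => hab h.symm, h3⟩) }
  · intro a b
    constructor
    · intro hab i
      by_cases hfab : f a = f b
      · exact Or.inr ⟨hfab, hab⟩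
      · refine Or.inl ⟨hfab, ?_⟩
        refine (hreal _ _).mp ?_ i
        by_cases ha : a = x <;> by_cases hb : b = x
        · exact absurd (by rw [ha, hb]) hfab
        · rw [ha, fx, fz b hb, Subtype.mk_le_mk]
          rw [ha] at hab
          exact h1 b (lt_of_le_of_ne hab (Ne.symm hb))
        · rw [hb, fx, fz a ha, Subtype.mk_le_mk]
          rw [hb] at hab
          exact hab.trans hxy.le
        · rw [fz a ha, fz b hb, Subtype.mk_le_mk]
          exact hab
    · intro hall
      by_cases hfab : f a = f b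
      · rcases hall ⟨0, by omega⟩ with ⟨h3, -⟩ | ⟨-, h3⟩
        · exact absurd hfab h3
        · exact h3
      · have h3 : f a ≤ f b := by
          rw [hreal]
          intro i
          rcases hall i with ⟨-, h4⟩ | ⟨h4, -⟩
          · exact h4
          · exact absurd h4 hfab
        by_cases ha : a = x <;> by_cases hb : b = x
        · exact absurd (by rw [ha, hb]) hfab
        · rw [ha, fx, fz b hb, Subtype.mk_le_mk] at h3
          rw [ha]
          exact hxy.le.trans h3
        · rw [hb, fx, fz a ha, Subtype.mk_le_mk] at h3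
          rw [hb, fx, fz a ha, Subtype.mk.injEq] at hfab
          rw [hb]
          exact h2 a (lt_of_le_of_ne h3 hfab)
        · rw [fz a ha, fz b hb, Subtype.mk_le_mk] at h3
          exact h3

lemma dim_le_of (x : P) [Finite P]
    (h : ∀ k, 1 ≤ k → HasRealizer {z : P // z ≠ x} k → HasRealizer P k) :
    dim P ≤ dim {z : P // z ≠ x} := by
  have h1 : dim {z : P // z ≠ x} ∈ {k | 1 ≤ k ∧ HasRealizer {z : P // z ≠ x} k} :=
    Nat.sInf_mem exists_realizer
  exact Nat.sInf_le ⟨h1.1, h _ h1.1 h1.2⟩

lemma second [Finite P] (x : P) (hx : JoinIrr x) : (∃ a, Crit a x) ∨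
    (∃ y, y < x ∧ (∀ z, z < x → z ≤ y) ∧ (∀ z, y < z → x ≤ z)) := by
  classical
  -- `x` is not the join of the elements strictly below it
  have h1 : ¬ IsLUB {z | z < x} x := fun h =>
    lt_irrefl x (show x < x from hx {z | z < x} h)
  have h2 : ∃ y, (∀ z, z < x → z ≤ y) ∧ ¬ x ≤ y := by
    by_contra hcon
    push Not at hcon
    exact h1 ⟨fun z hz => le_of_lt hz, fun y hy => hcon y (fun z hz => hy hz)⟩
  by_cases hA : ∃ y, (∀ z, z < x → z ≤ y) ∧ ¬ x ≤ y ∧ ¬ y ≤ x
  · left
    obtain ⟨y, hy⟩ := (Set.toFinite {y | (∀ z, z < x → z ≤ y) ∧ ¬ x ≤ y ∧ ¬ y ≤ x}).exists_maximal hA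
    obtain ⟨⟨hy1, hy2, hy3⟩, hymax⟩ := hy
    refine ⟨y, hy3, hy2, ?_, ?_⟩
    · intro z hz
      by_contra hxz
      have hxz' : ¬ x ≤ z := by
        intro h
        rcases h.lt_or_eq with h | h
        · exact hxz h
        · rw [← h] at hz
          exact hy3 hz.le
      have hzx : ¬ z ≤ x := fun h => hy3 (hz.le.trans h)
      have h3 := hymax (show z ∈ {y | (∀ z, z < x → z ≤ y) ∧ ¬ x ≤ y ∧ ¬ y ≤ x} from
        ⟨fun w hw => (hy1 w hw).trans hz.le, hxz', hzx⟩) hz.le
      exact absurd (lt_of_lt_of_le hz h3) (lt_irrefl _)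
    · intro z hz
      refine lt_of_le_of_ne (hy1 z hz) ?_
      rintro rfl
      exact hy3 hz.le
  · right
    push Not at hA
    obtain ⟨y, hy1, hy2⟩ := h2
    have hyx : y ≤ x := hA y hy1 hy2
    have hyx' : y < x := lt_of_le_of_ne hyx (fun h => hy2 h.ge)
    refine ⟨y, hyx', hy1, fun z hz => ?_⟩
    by_contra hxz
    have hzx := hA z (fun w hw => (hy1 w hw).trans hz.le) hxz
    have hzx' : z < x := lt_of_le_of_ne hzx (fun h => hxz h.ge)
    exact absurd (lt_of_lt_of_le hz (hy1 z hzx')) (lt_irrefl _)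

lemma first [Finite P] (x : P) (hx : MeetIrr x) : (∃ b, Crit x b) ∨
    (∃ y, x < y ∧ (∀ z, x < z → y ≤ z) ∧ (∀ z, z < y → z ≤ x)) := by
  classical
  have h1 : ¬ IsGLB {z | x < z} x := fun h =>
    lt_irrefl x (show x < x from hx {z | x < z} h)
  have h2 : ∃ y, (∀ z, x < z → y ≤ z) ∧ ¬ y ≤ x := by
    by_contra hcon
    push Not at hcon
    exact h1 ⟨fun z hz => le_of_lt hz, fun y hy => hcon y (fun z hz => hy hz)⟩
  by_cases hA : ∃ y, (∀ z, x < z → y ≤ z) ∧ ¬ x ≤ y ∧ ¬ y ≤ x
  · left
    obtain ⟨y, hy⟩ := (Set.toFinite {y | (∀ z, x < z → y ≤ z) ∧ ¬ x ≤ y ∧ ¬ y ≤ x}).exists_minimal hA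
    obtain ⟨⟨hy1, hy2, hy3⟩, hymin⟩ := hy
    refine ⟨y, hy2, hy3, ?_, ?_⟩
    · intro z hz
      refine lt_of_le_of_ne (hy1 z hz) ?_
      rintro rfl
      exact hy2 hz.le
    · intro z hz
      by_contra hxz
      have hxz' : ¬ z ≤ x := by
        intro h
        rcases h.lt_or_eq with h | h
        · exact hxz h
        · rw [h] at hz
          exact hy2 hz.le
      have hzx : ¬ x ≤ z := fun h => hy2 (h.trans hz.le)
      have h3 := hymin (show z ∈ {y | (∀ z, x < z → y ≤ z) ∧ ¬ x ≤ y ∧ ¬ y ≤ x} from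
        ⟨fun w hw => hz.le.trans (hy1 w hw), hzx, hxz'⟩) hz.le
      exact absurd (lt_of_lt_of_le hz h3) (lt_irrefl _)
  · right
    push Not at hA
    obtain ⟨y, hy1, hy2⟩ := h2
    have hxy : x ≤ y := by
      by_contra h
      exact hy2 (hA y hy1 h)
    have hxy' : x < y := lt_of_le_of_ne hxy (fun h => hy2 h.ge)
    refine ⟨y, hxy', hy1, fun z hz => ?_⟩
    by_contra hxz
    have hzx : x ≤ z := by
      by_contra h
      exact hxz (hA z (fun w hw => hz.le.trans (hy1 w hw)) h)
    have hzx' : x < z := lt_of_le_of_ne hzx (fun h => hxz h.ge)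
    exact absurd (lt_of_lt_of_le hz (hy1 z hzx')) (lt_irrefl _)

end

/-- A doubly irreducible element of a finite irreducible poset is the first element of a critical
pair and the second element of a critical pair. -/
theorem result (P : Type) [PartialOrder P] [Finite P] (hP : Irreducible P) (x : P)
    (hJ : JoinIrr x) (hM : MeetIrr x) : (∃ b, Crit x b) ∧ (∃ a, Crit a x) := by
  constructor
  · rcases first x hM with h | ⟨y, hy1, hy2, hy3⟩
    · exact h
    · exact absurd (dim_le_of x (fun k hk h => realizer_below x y hy1 hy2 hy3 k hk h))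
        (not_le.mpr (hP x))
  · rcases second x hJ with h | ⟨y, hy1, hy2, hy3⟩
    · exact h
    · exact absurd (dim_le_of x (fun k hk h => realizer_above x y hy1 hy2 hy3 k hk h))
        (not_le.mpr (hP x))

end Pool.Agent.Results.MP_ba261c_co.DoublyIrreducible
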